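import Pool.Agent.Lib_helper52.LQ.Defs

set_option autoImplicit false

namespace Pool.Agent.LQ

open MeasureTheory ENNReal Set Filter Topology Pool.Agent.EPS Pool.Agent.YG

variable {d : ℕ}

/-- convolution as an image measure -/
theorem r1_map (α γ : Measure (Eu d)) :
    α.conv γ = (α.prod γ).map (fun p : Eu d × Eu d => p.1 + p.2) := rfl

theorem r1_int (α γ : Measure (Eu d)) {h : Eu d → ℝ} (hh : Measurable h) :
    ∫ u, h u ∂(α.conv γ) = ∫ p, h (p.1 + p.2) ∂(α.prod γ) := by
  rw [r1_map]
  exact integral_map (measurable_fst.add measurable_snd).aemeasurable hh.aestronglyMeasurable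

theorem r1_bint (μ : Measure (Eu d)) [IsFiniteMeasure μ] {f : Eu d → ℝ} (hf : Measurable f)
    {C : ℝ} (hC : ∀ x, |f x| ≤ C) : Integrable f μ :=
  Integrable.of_bound hf.aestronglyMeasurable C (Eventually.of_forall fun x => by
    rw [Real.norm_eq_abs]; exact hC x)

theorem r1_bint2 (μ : Measure (Eu d × Eu d)) [IsFiniteMeasure μ] {f : Eu d × Eu d → ℝ}
    (hf : Measurable f) {C : ℝ} (hC : ∀ x, |f x| ≤ C) : Integrable f μ :=
  Integrable.of_bound hf.aestronglyMeasurable C (Eventually.of_forall fun x => by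
    rw [Real.norm_eq_abs]; exact hC x)

/-- compare on measurable sets, `h` = indicator function -/
theorem conv_tl (α γ : Measure (Eu d)) [IsProbabilityMeasure α] [IsProbabilityMeasure γ]
    (k κ : Eu d → ℝ) (hk : Measurable k) (h : Rg α γ k κ) (M s : ℝ) (hM : ∀ z, |k z| ≤ M)
    (hs : |s| * M ≤ 1) : α.conv (tl γ (fun z => 1 + s * k z)) =
      tl (α.conv γ) (fun u => 1 + s * κ u) := by
  have hκM : ∀ u, |κ u| ≤ M := h.bd M hM
  have hM0 : 0 ≤ M := (abs_nonneg _).trans (hM 0)
  have b1 : ∀ t : ℝ, |t| ≤ M → |s * t| ≤ 1 := by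
    intro t ht
    rw [abs_mul]
    exact (mul_le_mul_of_nonneg_left ht (abs_nonneg s)).trans hs
  have b2 : ∀ t : ℝ, |t| ≤ M → 0 ≤ 1 + s * t := by
    intro t ht
    have := (abs_le.1 (b1 t ht)).1
    linarith
  have b3 : ∀ t : ℝ, |t| ≤ M → |1 + s * t| ≤ 2 := by
    intro t ht
    have := (abs_le.1 (b1 t ht))
    rw [abs_le]
    constructor <;> linarith
  have madd : Measurable (fun p : Eu d × Eu d => p.1 + p.2) :=
    measurable_fst.add measurable_snd
  ext A hA
  have mB : MeasurableSet ((fun p : Eu d × Eu d => p.1 + p.2) ⁻¹' A) := madd hA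
  set ind : Eu d → ℝ := A.indicator (fun _ => (1 : ℝ)) with hind
  have mind : Measurable ind := measurable_const.indicator hA
  have bind : ∀ u, |ind u| ≤ 1 := by
    intro u
    by_cases hu : u ∈ A
    · rw [hind, indicator_of_mem hu, abs_one]
    · rw [hind, indicator_of_notMem hu, abs_zero]; exact zero_le_one
  have L : (α.conv (tl γ (fun z => 1 + s * k z))) A =
      ENNReal.ofReal (∫ p, (1 + s * k p.2) * ind (p.1 + p.2) ∂(α.prod γ)) := by
    have mg : Measurable (fun z => ENNReal.ofReal (1 + s * k z)) :=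
      ENNReal.measurable_ofReal.comp (measurable_const.add (hk.const_mul s))
    rw [r1_map, Measure.map_apply madd hA, tl, prod_withDensity_right mg,
      withDensity_apply _ mB, ← ofReal_integral_eq_lintegral_ofReal]
    · congr 1
      rw [← integral_indicator mB]
      congr 1
      funext p
      by_cases hp : p.1 + p.2 ∈ A
      · rw [indicator_of_mem (by exact hp), hind, indicator_of_mem hp, mul_one]
      · rw [indicator_of_notMem (by exact hp), hind, indicator_of_notMem hp, mul_zero]
    · exact (r1_bint2 _ (measurable_const.add ((hk.comp measurable_snd).const_mul s))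
        (C := 2) (fun p => b3 _ (hM p.2)))
    · exact Eventually.of_forall fun p => b2 _ (hM p.2)
  have R : (tl (α.conv γ) (fun u => 1 + s * κ u)) A =
      ENNReal.ofReal (∫ u, (1 + s * κ u) * ind u ∂(α.conv γ)) := by
    rw [tl, withDensity_apply _ hA, ← ofReal_integral_eq_lintegral_ofReal]
    · congr 1
      rw [← integral_indicator hA]
      congr 1
      funext u
      by_cases hu : u ∈ A
      · rw [indicator_of_mem hu, hind, indicator_of_mem hu, mul_one]
      · rw [indicator_of_notMem hu, hind, indicator_of_notMem hu, mul_zero]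
    · exact r1_bint _ (measurable_const.add (h.meas.const_mul s)) (C := 2)
        (fun u => b3 _ (hκM u))
    · exact Eventually.of_forall fun u => b2 _ (hκM u)
  rw [L, R]
  congr 1
  have e1 : ∫ p, (1 + s * k p.2) * ind (p.1 + p.2) ∂(α.prod γ) =
      ∫ p, ind (p.1 + p.2) ∂(α.prod γ) + s * ∫ p, k p.2 * ind (p.1 + p.2) ∂(α.prod γ) := by
    rw [← integral_const_mul, ← integral_add]
    · congr 1
      funext p
      ring
    · exact r1_bint2 _ (mind.comp madd) (C := 1) (fun p => bind _)
    · refine (r1_bint2 _ ((hk.comp measurable_snd).mul (mind.comp madd)) (C := M * 1)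
        (fun p => ?_)).const_mul s
      show |k p.2 * ind (p.1 + p.2)| ≤ M * 1
      rw [abs_mul]
      exact mul_le_mul (hM _) (bind _) (abs_nonneg _) hM0
  have e2 : ∫ u, (1 + s * κ u) * ind u ∂(α.conv γ) =
      ∫ u, ind u ∂(α.conv γ) + s * ∫ u, κ u * ind u ∂(α.conv γ) := by
    rw [← integral_const_mul, ← integral_add]
    · congr 1
      funext u
      ring
    · exact r1_bint _ mind (C := 1) bind
    · refine (r1_bint _ (h.meas.mul mind) (C := M * 1) (fun u => ?_)).const_mul s
      show |κ u * ind u| ≤ M * 1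
      rw [abs_mul]
      exact mul_le_mul (hκM _) (bind _) (abs_nonneg _) hM0
  rw [e1, e2, h.eq ind ⟨mind, 1, bind⟩, r1_int α γ mind]

theorem rg_mean (α γ : Measure (Eu d)) [IsProbabilityMeasure α] [IsProbabilityMeasure γ]
    (k κ : Eu d → ℝ) (h : Rg α γ k κ) : ∫ u, κ u ∂(α.conv γ) = ∫ z, k z ∂γ := by
  have h1 := h.eq (fun _ => 1) ⟨measurable_const, 1, fun _ => by rw [abs_one]⟩
  simp only [mul_one] at h1
  rw [← h1, integral_fun_snd, probReal_univ, one_smul]

end Pool.Agent.LQ
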